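import Pool.Agent.Q306.FK.T2X.Eq
import Pool.Agent.Q306.FK.Stab
import Pool.Agent.Q306.FK.Bip

set_option autoImplicit false
set_option maxRecDepth 100000
set_option maxHeartbeats 4000000
open Finset

namespace Pool.Agent.Q306.FK.T2X
open Pool.Agent.H122R2.N6 Pool.Agent.H37R3.Pen Pool.Agent.H37R3.K5

theorem tls : ∀ g : Fin 6 → Bool, cnt g = 2 → codeG g ∈ TLS := by decide +kernel

theorem tb : ∀ d ∈ TLS, inB d = true := by decide +kernel

theorem base {n : ℕ} {H : Finset (Finset (Fin n))} (hH : ThreeGraph H) (hF : FK.K53Free H) :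
    0 * (n : ℤ) ^ 3 * (H.card : ℤ) + 4920034576896000 * (bip6 2 H : ℤ) +
      1057304372400 * ∑ x : Fin 6 → Fin n, ((YB (tn H) x : ℕ) : ℤ) ≤ 3203147511000 * (n : ℤ) ^ 6 := by
  have h := main (tn_sy H) (tn_noK5 hH hF)
    (R := fun k x => k + LAM * ZT (tn H) 2 x + SLK * YB (tn H) x ≤ CST)
    (fun k x s hs hk => by rw [ZT_comp x hs, YB_comp x hs]; exact hk)
    (fun k x hk => by
      have hk' : (Nat.ble (Nat.add k (Nat.add LAM SLK)) CST || (cond (inT (code (tn H) x)) (Nat.ble (Nat.add k LAM) CST) (cond (inB (code (tn H) x)) (Nat.ble k CST) (Nat.ble (Nat.add k SLK) CST)))) = true := hk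
      rw [Bool.or_eq_true] at hk'
      have hY := YB_le (E := tn H) x
      have hYS : SLK * YB (tn H) x ≤ SLK := by
        calc _ ≤ SLK * 1 := Nat.mul_le_mul_left _ hY
          _ = SLK := mul_one _
      have hZ := ZT_le (E := tn H) (j := 2) x
      have hZS : LAM * ZT (tn H) 2 x ≤ LAM := by
        calc _ ≤ LAM * 1 := Nat.mul_le_mul_left _ hZ
          _ = LAM := mul_one _
      rcases hk' with h1 | h1
      · have h3 : k + (LAM + SLK) ≤ CST := Nat.le_of_ble_eq_true h1
        omega
      · cases hT : inT (code (tn H) x) with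
        | true =>
          rw [hT, cond_true, Nat.add_eq] at h1
          have h3 : k + LAM ≤ CST := Nat.le_of_ble_eq_true h1
          obtain ⟨d, hd, he⟩ := anyL_true hT
          have hB : inB (code (tn H) x) = true := by
            rw [Nat.eq_of_beq_eq_true he]; exact tb d hd
          rw [YB_of_inB (tn_sy H) hB, mul_zero, add_zero]
          omega
        | false =>
          rw [hT, cond_false] at h1
          rw [ZT_of_not (tn_sy H) tls hT, mul_zero, add_zero]
          cases hB : inB (code (tn H) x) with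
          | true =>
            rw [hB, cond_true] at h1
            have h3 : k ≤ CST := Nat.le_of_ble_eq_true h1
            rw [YB_of_inB (tn_sy H) hB, mul_zero, add_zero]
            exact h3
          | false =>
            rw [hB, cond_false, Nat.add_eq] at h1
            have h3 : k + SLK ≤ CST := Nat.le_of_ble_eq_true h1
            omega)
    (fun x => (CST : ℤ) - (LAM : ℤ) * ((ZT (tn H) 2 x : ℕ) : ℤ) - (SLK : ℤ) * ((YB (tn H) x : ℕ) : ℤ))
    (fun k x hk => by
      have : ((k + LAM * ZT (tn H) 2 x + SLK * YB (tn H) x : ℕ) : ℤ) ≤ ((CST : ℕ) : ℤ) := by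
        exact_mod_cast hk
      push_cast at this
      linarith)
  have hC : (CST : ℤ) = 267085938177240 := rfl
  have hL : (LAM : ℤ) = 6833381356800 := rfl
  have hS : (SLK : ℤ) = 1057304372400 := rfl
  rw [sum_sub_distrib, sum_sub_distrib, sum_const, ← mul_sum, ← mul_sum, card_univ,
    Fintype.card_fun, Fintype.card_fin, Fintype.card_fin, nsmul_eq_mul, hC, hL, hS] at h
  push_cast at h
  have h1 : ((720 * bip6 2 H : ℕ) : ℤ) ≤ ∑ x : Fin 6 → Fin n, ((ZT (tn H) 2 x : ℕ) : ℤ) := by
    exact_mod_cast bip6_le H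
  have h2 : ((6 * H.card : ℕ) : ℤ) ≤ ∑ a, ∑ b, ∑ c, ((tn H a b c : ℕ) : ℤ) := by
    exact_mod_cast tn_card hH
  have h3 : (0 : ℤ) ≤ (n : ℤ) ^ 3 := by positivity
  have h4 := mul_le_mul_of_nonneg_left h2 h3
  push_cast at h1 h4
  linarith

end Pool.Agent.Q306.FK.T2X
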